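import Pool.Agent.W544.PG.Defs8

/-!
Project TP (helper544): parts TBD and TCM.
-/

set_option autoImplicit false

open Matrix Finset Module

namespace Pool.Agent.W723.TP

open Pool.Agent.W544.PG

section
variable {K : Type} [Field K] {n : ℕ}

/-- the 2-form of a matrix -/
def tf (B : Matrix (Fin n) (Fin n) K) : (Fin 2 → Fin n) → K := fun J => B (J 0) (J 1)

theorem tf_inj {B C : Matrix (Fin n) (Fin n) K} (h : tf B = tf C) : B = C := by
  ext a b
  have := congrFun h ![a, b]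
  simpa [tf] using this

theorem tf_zero {B : Matrix (Fin n) (Fin n) K} (h : tf B = 0) : B = 0 := by
  ext a b
  have := congrFun h ![a, b]
  simpa [tf] using this

theorem pull_tf (R B : Matrix (Fin n) (Fin n) K) : pull R (tf B) = tf (Rᵀ * B * R) := by
  funext J
  simp only [pull, tf, Fin.prod_univ_two]
  rw [← (finTwoArrowEquiv (Fin n)).symm.sum_comp, Fintype.sum_prod_type]
  simp only [finTwoArrowEquiv_symm_apply, Matrix.cons_val_zero, Matrix.cons_val_one,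
    Matrix.mul_apply, Matrix.transpose_apply, Finset.sum_mul]
  rw [Finset.sum_comm]
  refine Finset.sum_congr rfl fun b _ => Finset.sum_congr rfl fun a _ => ?_
  ring

theorem act_tf (y B : Matrix (Fin n) (Fin n) K) : actK y (tf B) = tf (yᵀ * B + B * y) := by
  funext J
  simp only [actK, tf, Fin.sum_univ_two, Matrix.add_apply, Matrix.mul_apply,
    Matrix.transpose_apply]
  congr 1
  refine Finset.sum_congr rfl fun a _ => ?_
  simp [mul_comm]

variable {Γ : Type} [Group Γ] [TopologicalSpace Γ]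

theorem skew_of (T : GR K Γ n) (B : Matrix (Fin n) (Fin n) K)
    (h : ∀ g, (T.ρ g)ᵀ * B * T.ρ g = B) : ∀ y ∈ T.L, yᵀ * B + B * y = 0 := by
  intro y hy
  have h1 : IsTate T.ρ (tf B) := by
    refine ⟨⊤, ?_, fun g _ => ?_⟩
    · simp
    · rw [pull_tf, h]
  have h2 := (T.tate 2 (tf B)).1 h1 y hy
  rw [act_tf] at h2
  exact tf_zero h2

end

theorem tbd : S_tbd := by
  intro K _ Γ _ _ n r T c hQ hρ hdet y hy
  have h0 := skew_of T T.Q T.inv y hy
  refine ⟨?_, h0⟩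
  have key : ∀ i : Fin r, Matrix.diagonal (fun a => if c a = i then (1 : K) else 0) * y =
      y * Matrix.diagonal (fun a => if c a = i then (1 : K) else 0) := by
    intro i
    obtain ⟨E, hE⟩ : ∃ E : Matrix (Fin n) (Fin n) K,
        E = Matrix.diagonal (fun a => if c a = i then (1 : K) else 0) := ⟨_, rfl⟩
    rw [← hE]
    have hcom : ∀ g, E * T.ρ g = T.ρ g * E := by
      intro g
      ext a b
      rw [hE, Matrix.diagonal_mul, Matrix.mul_diagonal]
      by_cases hab : c a = c b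
      · rw [hab, mul_comm]
      · rw [hρ g a b hab, mul_zero, zero_mul]
    have h1 := skew_of T (T.Q * E) (fun g => by
      rw [← Matrix.mul_assoc, Matrix.mul_assoc _ E, hcom, ← Matrix.mul_assoc, T.inv]) y hy
    have h2 : yᵀ * T.Q = -(T.Q * y) := eq_neg_of_add_eq_zero_left h0
    have h3 : T.Q * (E * y) = T.Q * (y * E) := by
      rw [← Matrix.mul_assoc, h2, neg_mul] at h1
      have h4 := eq_of_sub_eq_zero (show T.Q * E * y - T.Q * y * E = 0 by
        rw [sub_eq_add_neg, add_comm]; exact h1)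
      rw [Matrix.mul_assoc, Matrix.mul_assoc] at h4
      exact h4
    have hu : IsUnit T.Q.det := isUnit_iff_ne_zero.2 hdet
    have h5 := congrArg (fun M => T.Q⁻¹ * M) h3
    simpa only [← Matrix.mul_assoc, Matrix.nonsing_inv_mul _ hu, Matrix.one_mul] using h5
  intro a b hab
  have h1 := congrFun (congrFun (key (c a)) a) b
  rw [Matrix.diagonal_mul, Matrix.mul_diagonal, if_pos rfl, if_neg (Ne.symm hab), one_mul,
    mul_zero] at h1
  exact h1

theorem tcm : S_tcm := by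
  intro K _ Γ _ _ n T hdet hsk P hP
  have h1 : ∀ y ∈ T.L, actK y (tf (Pᵀ * T.Q)) = 0 := by
    intro y hy
    rw [act_tf]
    have e1 : yᵀ * (Pᵀ * T.Q) + Pᵀ * T.Q * y = 0 := by
      rw [← Matrix.mul_assoc, ← Matrix.transpose_mul, hP y hy, Matrix.transpose_mul,
        Matrix.mul_assoc, Matrix.mul_assoc, ← Matrix.mul_add, hsk y hy, Matrix.mul_zero]
    rw [e1]
    rfl
  obtain ⟨U, hU, h2⟩ := (T.tate 2 _).2 h1
  refine ⟨U, hU, fun g hg => ?_⟩
  have h3 := h2 g hg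
  rw [pull_tf] at h3
  have h4 : (T.ρ g)ᵀ * (Pᵀ * T.Q) * T.ρ g = Pᵀ * T.Q := tf_inj h3
  have hu : IsUnit T.Q.det := isUnit_iff_ne_zero.2 hdet
  have hg1 : T.ρ g * T.ρ g⁻¹ = 1 := by rw [← map_mul, mul_inv_cancel, map_one]
  have hg2 : T.ρ g⁻¹ * T.ρ g = 1 := by rw [← map_mul, inv_mul_cancel, map_one]
  -- `Q ρ = ρ⁻ᵀ Q`
  have h5 : T.Q * T.ρ g = (T.ρ g⁻¹)ᵀ * T.Q := by
    have := T.inv g
    calc T.Q * T.ρ g = ((T.ρ g * T.ρ g⁻¹)ᵀ * T.Q) * T.ρ g := by
          rw [hg1, Matrix.transpose_one, Matrix.one_mul]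
      _ = (T.ρ g⁻¹)ᵀ * ((T.ρ g)ᵀ * T.Q * T.ρ g) := by
          rw [Matrix.transpose_mul]; simp only [Matrix.mul_assoc]
      _ = (T.ρ g⁻¹)ᵀ * T.Q := by rw [this]
  have e1 : (T.ρ g)ᵀ * (Pᵀ * T.Q) * T.ρ g = (T.ρ g⁻¹ * (P * T.ρ g))ᵀ * T.Q := by
    calc (T.ρ g)ᵀ * (Pᵀ * T.Q) * T.ρ g = (T.ρ g)ᵀ * Pᵀ * (T.Q * T.ρ g) := by
          simp only [Matrix.mul_assoc]
      _ = (T.ρ g)ᵀ * Pᵀ * ((T.ρ g⁻¹)ᵀ * T.Q) := by rw [h5]
      _ = (T.ρ g⁻¹ * (P * T.ρ g))ᵀ * T.Q := by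
          rw [Matrix.transpose_mul, Matrix.transpose_mul]; simp only [Matrix.mul_assoc]
  rw [e1] at h4
  have h6 : (T.ρ g⁻¹ * (P * T.ρ g))ᵀ = Pᵀ := by
    have h7 := congrArg (fun M => M * T.Q⁻¹) h4
    simpa only [Matrix.mul_assoc, Matrix.mul_nonsing_inv _ hu, Matrix.mul_one] using h7
  have h8 : T.ρ g⁻¹ * (P * T.ρ g) = P := by
    have := congrArg Matrix.transpose h6
    rwa [Matrix.transpose_transpose, Matrix.transpose_transpose] at this
  calc P * T.ρ g = T.ρ g * T.ρ g⁻¹ * (P * T.ρ g) := by rw [hg1, Matrix.one_mul]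
    _ = T.ρ g * (T.ρ g⁻¹ * (P * T.ρ g)) := by rw [Matrix.mul_assoc]
    _ = T.ρ g * P := by rw [h8]

end Pool.Agent.W723.TP
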